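import Pool.Agent.H2.NL.Basic

/-! # Row IDM of `nil_modules` (MP_fd35e1_ag): an idempotent polynomial in a class (helper49) -/

set_option autoImplicit false

open Matrix Pool.Agent.H2.NL

namespace Pool.Agent.H49.NL

section

variable {K : Type} [Field K] {I : Type} [Fintype I]

theorem op_add (η : Matrix I I K) (l : ℕ) (t t' : List I → K) :
    op η l (t + t') = op η l t + op η l t' := by
  ext u u'
  simp only [op, opw, Matrix.of_apply, Matrix.add_apply, Pi.add_apply, add_mul,
    Finset.sum_add_distrib]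

theorem op_zero (η : Matrix I I K) (l : ℕ) : op η l (0 : List I → K) = 0 := by
  ext u u'
  simp only [op, opw, Matrix.of_apply, Matrix.zero_apply, Pi.zero_apply, zero_mul,
    Finset.sum_const_zero]

theorem op_smul [CharZero K] (η : Matrix I I K) (l : ℕ) (q : ℚ) (t : List I → K) :
    op η l (q • t) = q • op η l t := by
  ext u u'
  simp only [op, opw, Matrix.of_apply, Matrix.smul_apply, Pi.smul_apply, smul_mul_assoc,
    Finset.smul_sum]

/-- the operators of the classes of cycles are an algebra -/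
def alg [DecidableEq I] [CharZero K] (η : Matrix I I K) (l : ℕ) (B : Submodule ℚ (List I → K))
    (hmul : ∀ t ∈ B, ∀ t' ∈ B, ∃ t'' ∈ B, op η l t'' = op η l t * op η l t')
    (hone : ∃ t ∈ B, op η l t = 1) :
    Subalgebra ℚ (Matrix (List.Vector I l) (List.Vector I l) K) where
  carrier := {X | ∃ t ∈ B, op η l t = X}
  mul_mem' := by
    rintro X Y ⟨t, ht, rfl⟩ ⟨t', ht', rfl⟩
    exact hmul t ht t' ht'
  one_mem' := hone
  add_mem' := by
    rintro X Y ⟨t, ht, rfl⟩ ⟨t', ht', rfl⟩
    exact ⟨t + t', B.add_mem ht ht', op_add η l t t'⟩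
  zero_mem' := ⟨0, B.zero_mem, op_zero η l⟩
  algebraMap_mem' := by
    intro q
    obtain ⟨t, ht, h1⟩ := hone
    refine ⟨q • t, B.smul_mem q ht, ?_⟩
    rw [op_smul, h1, Algebra.algebraMap_eq_smul_one]

theorem int_prod (L : List K) (h : ∀ x ∈ L, ∃ z : ℤ, x = (z : K)) : ∃ z : ℤ, L.prod = (z : K) := by
  induction L with
  | nil => exact ⟨1, by simp⟩
  | cons x L ih =>
    obtain ⟨z, hz⟩ := h x (by simp)
    obtain ⟨z', hz'⟩ := ih (fun y hy => h y (by simp [hy]))
    exact ⟨z * z', by rw [List.prod_cons, hz, hz']; push_cast; ring⟩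

theorem int_sum {J : Type} (S : Finset J) (f : J → K) (h : ∀ x, ∃ z : ℤ, f x = (z : K)) :
    ∃ z : ℤ, ∑ x ∈ S, f x = (z : K) := by
  choose g hg using h
  exact ⟨∑ x ∈ S, g x, by simp [hg]⟩

theorem op_int [DecidableEq I] (F : Form K I) (l : ℕ) (Z : List I → K)
    (hZ : ∀ w, ∃ z : ℤ, Z w = (z : K)) (u u' : List.Vector I l) :
    ∃ z : ℤ, op F.η l Z u u' = (z : K) := by
  show ∃ z : ℤ, (∑ v : List.Vector I l, Z (u.1 ++ v.1) *
    (List.zipWith (fun a b => F.η a b) v.1.reverse u'.1).prod) = (z : K)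
  apply int_sum
  intro v
  obtain ⟨z1, h1⟩ := hZ (u.1 ++ v.1)
  have h2 : ∃ z : ℤ, (List.zipWith (fun a b => F.η a b) v.1.reverse u'.1).prod = (z : K) := by
    apply int_prod
    intro x hx
    rw [List.mem_iff_getElem] at hx
    obtain ⟨i, hi, rfl⟩ := hx
    rw [List.getElem_zipWith]
    unfold Form.η
    rw [Matrix.of_apply]
    split_ifs
    · rcases F.c_val (v.1.reverse[i]'(by simp at hi ⊢; omega)) with h | h
      · exact ⟨1, by rw [h]; simp⟩
      · exact ⟨-1, by rw [h]; simp⟩
    · exact ⟨0, by simp⟩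
  obtain ⟨z2, h2⟩ := h2
  exact ⟨z1 * z2, by rw [h1, h2]; push_cast; ring⟩

end

theorem pf_IDM (hMLG : T_MLG) (hFTT : T_FTT) : T_IDM := by
  intro K _ _ I _ _ F A hA l Z hZ hint hnil hnum
  obtain ⟨hmul, hidt, hone⟩ := hMLG K I F A hA l
  set M := op F.η l Z with hM
  let S := alg F.η l (A l) hmul ⟨_, hidt, hone⟩
  have hMS : M ∈ S := ⟨Z, hZ, rfl⟩
  have hS : ∀ g : Polynomial ℚ, Polynomial.aeval M g ∈ S := by
    intro g
    exact (Algebra.adjoin_singleton_le hMS) (Polynomial.aeval_mem_adjoin_singleton ℚ M)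
  -- rational traces
  choose N hN using fun u u' => op_int F l Z hint u u'
  have hMN : M = (Matrix.of N).map (Int.castRingHom K) := by
    ext u u'
    rw [Matrix.map_apply, Matrix.of_apply]
    exact hN u u'
  have htr : ∀ k : ℕ, ∃ q : ℚ, (M ^ (k + 1)).trace = (q : K) := by
    intro k
    refine ⟨(((Matrix.of N) ^ (k + 1)).trace : ℤ), ?_⟩
    have h1 : M ^ (k + 1) = ((Matrix.of N) ^ (k + 1)).map (Int.castRingHom K) := by
      rw [hMN]
      exact (map_pow (Int.castRingHom K).mapMatrix (Matrix.of N) (k + 1)).symm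
    rw [h1]
    simp [Matrix.trace]
  let e := Fintype.equivFin (List.Vector I l)
  let φ := Matrix.reindexAlgEquiv ℚ K e
  have htrφ : ∀ X : Matrix (List.Vector I l) (List.Vector I l) K, (φ X).trace = X.trace := by
    intro X
    simp only [φ, Matrix.trace, Matrix.diag_apply]
    exact Equiv.sum_comp e.symm (fun u => X u u)
  obtain ⟨g, hg1, hg2⟩ := hFTT K _ (φ M)
    (fun k => by rw [← map_pow, htrφ]; exact htr k)
    (fun n h => hnil n (by
      rw [← map_pow] at h
      exact (map_eq_zero_iff φ φ.injective).1 h))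
  have haev : Polynomial.aeval (φ M) g = φ (Polynomial.aeval M g) := by
    have := Polynomial.aeval_algHom_apply φ.toAlgHom M g
    exact this
  rw [haev, ← map_mul, ← map_mul] at hg1
  rw [haev, ← map_mul] at hg2
  have hE1 := φ.injective hg1
  have hE2 : M * Polynomial.aeval M g ≠ 0 := fun h => hg2 (by rw [h, map_zero])
  obtain ⟨e', he', hee⟩ := S.mul_mem hMS (hS g)
  have hcomm : M * Polynomial.aeval M g = Polynomial.aeval M g * M := by
    have h1 : Polynomial.aeval M (Polynomial.X * g) = M * Polynomial.aeval M g := by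
      rw [map_mul, Polynomial.aeval_X]
    have h2 : Polynomial.aeval M (g * Polynomial.X) = Polynomial.aeval M g * M := by
      rw [map_mul, Polynomial.aeval_X]
    rw [← h1, ← h2, mul_comm]
  refine ⟨e', he', ?_, ?_, ?_⟩
  · rw [hee]; exact hE1
  · rw [hee]; exact hE2
  · intro y hy
    obtain ⟨y', hy', hyy⟩ := S.mul_mem (⟨y, hy, rfl⟩ : op F.η l y ∈ S) (hS g)
    have h3 : op F.η l y * op F.η l e' = op F.η l y' * M := by
      rw [hee, hyy, hcomm, mul_assoc]
    rw [h3]
    exact hnum y' hy'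

end Pool.Agent.H49.NL
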