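import Pool.Agent.H2.NL.Basic

/-! # Row IDS of `nil_modules` (MP_fd35e1_ag): nested products (helper49) -/

set_option autoImplicit false

open Matrix Pool.Agent.H2.NL

namespace Pool.Agent.H49.NL

section

variable {K : Type} [Field K] {I : Type} [Fintype I]

/-- move the second letter to the right -/
def mv (o : I → Bool) (t : List I → K) : ℕ → List I → K
  | 0 => t
  | j + 1 => sw o (j + 1) (mv o t j)

theorem mv_val (o : I → Bool) (t : List I → K) : ∀ (j : ℕ) (a : I) (u : List I) (b : I)
    (v : List I), u.length = j →
    mv o t j (a :: u ++ b :: v) = (u.map (fun c => ks K (o c) (o b))).prod * t (a :: b :: (u ++ v)) := by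
  intro j
  induction j with
  | zero =>
    intro a u b v hu
    have : u = [] := List.length_eq_zero_iff.1 hu
    subst this
    simp [mv]
  | succ j ih =>
    intro a u b v hu
    rcases List.eq_nil_or_concat u with h | ⟨u', c, h⟩
    · subst h; simp at hu
    · rw [List.concat_eq_append] at h
      subst h
      have hu' : u'.length = j := by simpa using hu
      have h1 := sw_append o (a :: u') (mv o t j) c b v
      have h2 : (a :: u').length = j + 1 := by simp [hu']
      rw [h2] at h1
      have e1 : a :: (u' ++ [c]) ++ b :: v = a :: u' ++ c :: b :: v := by simp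
      have e2 : u' ++ [c] ++ v = u' ++ c :: v := by simp
      show sw o (j + 1) (mv o t j) (a :: (u' ++ [c]) ++ b :: v) = _
      rw [e1, h1, ih a u' b (c :: v) hu', e2]
      simp only [List.map_append, List.prod_append, List.map_cons, List.map_nil, List.prod_cons,
        List.prod_nil, mul_one]
      ring

theorem prod_ks (o : I → Bool) (p : Bool) (w : List I) :
    (w.map (fun c => ks K (o c) p)).prod = sg K p ^ odds o w := by
  induction w with
  | nil => simp [odds]
  | cons c w ih =>
    rw [List.map_cons, List.prod_cons, ih]
    cases h : o c with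
    | true =>
      have : odds o (c :: w) = odds o w + 1 := by simp [odds, h]
      rw [this, ks_true_left, pow_succ, mul_comm]
    | false =>
      have : odds o (c :: w) = odds o w := by simp [odds, h]
      rw [this, ks_false_left, one_mul]

theorem sg_pow_even (p : Bool) {n : ℕ} (h : Even n) : sg K p ^ n = 1 := by
  obtain ⟨r, rfl⟩ := h
  rw [pow_add, ← mul_pow, sg_mul_self, one_pow]

theorem mv_mem [CharZero K] {o : I → Bool} {η ω : Matrix I I K}
    {A : ℕ → Submodule ℚ (List I → K)} (h : Calc o η ω A) (k : ℕ) (t : List I → K) (ht : t ∈ A k) :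
    ∀ j : ℕ, j + 2 ≤ 2 * k → mv o t j ∈ A k := by
  intro j
  induction j with
  | zero => intro _; exact ht
  | succ j ih => intro hj; exact h.sw k (j + 1) _ (ih (by omega)) hj

/-- first and last letter -/
theorem exists_ends {l : ℕ} (w : List I) (hw : w.length = 2 * (l + 1)) :
    ∃ (a : I) (w' : List I) (b : I), w'.length = 2 * l ∧ w = a :: w' ++ [b] := by
  match w, hw with
  | a :: v, hv =>
    rcases List.eq_nil_or_concat v with h | ⟨u, b, h⟩
    · subst h; simp at hv; omega
    · rw [List.concat_eq_append] at h
      subst h
      refine ⟨a, u, b, ?_, rfl⟩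
      simp at hv
      omega

theorem idt_ends (s : Matrix I I K) (l : ℕ) (a : I) (w' : List I) (b : I)
    (hw : w'.length = 2 * l) : idt s (l + 1) (a :: w' ++ [b]) = s a b * idt s l w' := by
  unfold idt
  have e1 : (a :: w' ++ [b]).take (l + 1) = a :: w'.take l := by
    rw [List.cons_append, List.take_succ_cons, List.take_append_of_le_length (by omega)]
  have e2 : (a :: w' ++ [b]).drop (l + 1) = w'.drop l ++ [b] := by
    rw [List.cons_append, List.drop_succ_cons, List.drop_append_of_le_length (by omega)]
  rw [e1, e2]
  simp

end

theorem pf_IDS : T_IDS := by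
  intro K _ _ I _ _ o η ω A h s hs l
  induction l with
  | zero =>
    refine h.congr 0 _ _ h.one (fun w _ => ?_)
    simp [idt]
  | succ l ih =>
    have h0 : tp 2 (two s) (idt s l) ∈ A (l + 1) := by
      have := h.tp 1 l _ _ hs ih
      rw [add_comm 1 l] at this
      exact this
    refine h.congr (l + 1) _ _ (mv_mem h (l + 1) _ h0 (2 * l) (by omega)) (fun w hw => ?_)
    obtain ⟨a, w', b, hw', rfl⟩ := exists_ends w hw
    rw [idt_ends s l a w' b hw', mv_val o _ (2 * l) a w' b [] hw', List.append_nil]
    have e : tp 2 (two s) (idt s l) (a :: b :: w') = s a b * idt s l w' := by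
      simp [tp, two]
    rw [e, prod_ks]
    by_cases hz : idt s l w' = 0
    · rw [hz]; simp
    · rw [sg_pow_even _ (h.even l _ w' ih hw' hz), one_mul]

end Pool.Agent.H49.NL
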